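import Pool.Agent.H567.PP.Hard5

/-!
# Goldbach partitions with a distinct prime in `(√N, 4 √N)`, and in every short part of this interval: the residue
classes of EVERY modulus `q ≤ x ^ (1 / 6 - ρ)`

There is a set `D` of at most `(log x)^c` integers, whose radicals are all larger than any given power of `log x`,
such that the following holds for EVERY modulus `q ≤ x ^ (1 / 6 - ρ)` and every residue class `a` modulo `q` for which
`gcd(a, q)` is not divisible by a member of `D`. These are

* all classes `a` with `rad (gcd (a, q)) ≤ (log x)^B`, in particular all classes with `gcd (a, q) ≤ (log x)^B`, for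
  EVERY modulus `q`, and ALL classes, for instance the multiples of `q`, for every modulus `q` with
  `rad q ≤ (log x)^B` (such as `q = 10 ^ k`: prescribed last digits);
* all but at most `q / (log x)^B` of the `q` residue classes, for EVERY modulus `q`;
* ALL classes of every modulus which is not divisible by a member of `D`.

All but at most `x / (q (log x)^A)` of the even integers `N ≤ x`, `N ≡ a (mod q)`, satisfy the assertion of the
question, and the number of the primes `p` with `√N < p < 4 √N` for which `N - p` is a prime different from `p` is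
`6 𝔖(N) √N / log² N`, the number predicted by Hardy and Littlewood, up to the factor `1 ± ε`. Moreover, simultaneously
for all windows `(U, V]` with `√N ≤ V ≤ N / 2` and `V - U ≥ V / (log N)^W`, the number of the primes `p` in the window
with `N - p` prime is the predicted one up to this factor: for instance the prime in `(√N, 4 √N)` can be chosen
smaller than `√N (1 + 1 / (log N)^W)`, or in any other such part of the interval.

For residue classes of large moduli the starting library has only windows of a length of at least `N / (log N)^W`, for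
the classes with `gcd(a, q) ≤ (log x)^T`, or for all classes of the moduli which are not divisible by members of a set
of large integers.

Definition used (in `Pool.Agent.H560R3.GB`): `sing N = 2 C₂ ∏_{p ∣ N, p > 2} (p - 1) / (p - 2)`, the singular series,
where `C₂ = ∏_{p > 2} (1 - 1 / (p - 1) ^ 2)` is the twin prime constant.

Proof: `H567/HW`, `H567/PP` (`PP/Hard3`, `PP/Hard4`, `PP/Hard5`); a sketch is in
`Results/MP_dd84fd_nt/EveryModulusEveryClass.lean`.
-/

set_option autoImplicit false

namespace Pool.Agent.Results.MP_b58c63_nt.IntervalEveryClass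

open Finset
open Pool.Agent.H560R3.GB (sing)

/-- The radical: the product of the prime factors. -/
def rad (n : ℕ) : ℕ := ∏ p ∈ n.primeFactors, p

/-- The primes `p` with `√N < p < 4 √N` for which `N - p` is a prime different from `p`. -/
def summands (N : ℕ) : Set ℕ :=
  {p : ℕ | p.Prime ∧ (N - p).Prime ∧ p ≠ N - p ∧ Real.sqrt N < p ∧ (p : ℝ) < 4 * Real.sqrt N}

/-- The number of these primes is `6 sing N √N / log² N` with a relative error of at most `ε`. -/
def Formula (ε : ℝ) (N : ℕ) : Prop :=
  |((summands N).ncard : ℝ) - 6 * (sing N * (Real.sqrt N / Real.log N ^ 2))| ≤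
    ε * (6 * (sing N * (Real.sqrt N / Real.log N ^ 2)))

/-- The number of the primes `p` with `U < p ≤ V` for which `N - p` is a prime. -/
def count (N U V : ℕ) : ℕ := ((Ioc U V).filter (fun p => p.Prime ∧ (N - p).Prime)).card

/-- In every window `(U, V]` with `√N ≤ V ≤ N / 2` and `V - U ≥ V / (log N)^W` the number of the primes `p` with `N - p`
prime is `sing N * (V - U) / (log V log N)` with a relative error of at most `ε`. -/
def Windows (ε : ℝ) (W N : ℕ) : Prop :=
  ∀ U V : ℕ, U ≤ V → Real.sqrt N ≤ V → 2 * V ≤ N → (V : ℝ) / Real.log N ^ W ≤ (V : ℝ) - U →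
    |(count N U V : ℝ) - sing N * (((V : ℝ) - U) / (Real.log V * Real.log N))| ≤
      ε * (sing N * (((V : ℝ) - U) / (Real.log V * Real.log N)))

/-- The even integers `0 < N ≤ x` with `N ≡ a (mod q)` for which `Formula ε N ∧ Windows ε W N` is false. -/
def exceptional (ε : ℝ) (W : ℕ) (x : ℝ) (q : ℕ) (a : ℤ) : Set ℕ :=
  {N : ℕ | 0 < N ∧ (N : ℝ) ≤ x ∧ 2 ∣ N ∧ (N : ℤ) ≡ a [ZMOD q] ∧ ¬ (Formula ε N ∧ Windows ε W N)}

/-- The class `a` modulo `q` is excluded by `D`: a member of `D` divides `a` and `q`. -/
def Excluded (D : Finset ℕ) (q : ℕ) (a : ℤ) : Prop := ∃ d ∈ D, d ∣ Int.gcd a q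

open Classical in
/-- For all `ρ, ε > 0`, `W` and `A` there is `c` such that for all `B` and all sufficiently large real `x` there is a
finite set `D` of at most `(log x) ^ c` integers, whose radicals are larger than `(log x) ^ B`, with the following
properties, for EVERY integer `q ≥ 1`. (a) A class `a` modulo `q` with `rad (gcd (a, q)) ≤ (log x)^B` is not excluded
by `D`; (b) at most `q / (log x)^B` of the classes modulo `q` are excluded by `D`; (c) if `q ≤ x ^ (1 / 6 - ρ)`, then
for every integer `a` which is not excluded by `D` (modulo `q`) all but at most `x / (q (log x)^A)` of the even integers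
`0 < N ≤ x`, `N ≡ a (mod q)`, satisfy `Formula ε N` and `Windows ε W N`. -/
theorem result (ρ ε : ℝ) (hρ : 0 < ρ) (hε : 0 < ε) (W A : ℕ) :
    ∃ c : ℕ, ∀ B : ℕ, ∃ x₀ : ℝ, ∀ x : ℝ, x₀ ≤ x →
    ∃ D : Finset ℕ, (D.card : ℝ) ≤ Real.log x ^ c ∧ (∀ d ∈ D, Real.log x ^ B < (rad d : ℝ)) ∧
    ∀ q : ℕ, 1 ≤ q →
      (∀ a : ℤ, (rad (Int.gcd a q) : ℝ) ≤ Real.log x ^ B → ¬ Excluded D q a) ∧
      (((range q).filter (fun a : ℕ => Excluded D q a)).card : ℝ) ≤ q / Real.log x ^ B ∧
      ∀ a : ℤ, ¬ Excluded D q a → (q : ℝ) ≤ x ^ (1 / 6 - ρ) →
        (exceptional ε W x q a).Finite ∧ ((exceptional ε W x q a).ncard : ℝ) ≤ x / (q * Real.log x ^ A) :=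
  Pool.Agent.H567.PP.base_final (Pool.Agent.H567.PP.b58S_base hρ hε W A)

end Pool.Agent.Results.MP_b58c63_nt.IntervalEveryClass
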