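import Mathlib
import Pool.Agent.H542.NJ.Fin
import Pool.Agent.H985.Cor.Base

/-!
# Goldbach representations with one very small summand, near squares

`K` is a finite field with an even number `q` of elements. Let `N = A² + r`, `A` monic, `deg r < n < 2 deg A`,
`n` even and `deg A ≤ q ^ (θ n)` (`N` is in the interval of length `q ^ n` around a square; for `q = 2` let
`N` be divisible by `X (X + 1)`). For large `n` and large `m ≤ κ n` the number of the representations
`N = F + G` with `F` monic of degree `n` (so `|F|` may be as small as a power of `deg N`, in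
particular of size about `√|N|`), `F` and `G` without irreducible factors of degree at most `m` and with
given parities of the numbers of irreducible factors is
`(1 / 4 + O(ε)) q ^ n ∏_(deg P ≤ m, P ∤ N) (1 - 2 / |P|) ∏_(deg P ≤ m, P ∣ N) (1 - 1 / |P|)`.

Idea. `F = a² + X b²`, `N - F = (A + a + s)² + X (b + t)²`, where `r = s² + X t²`. For typical fixed `b` the
Möbius functions of both are, as functions of `a` in a progression, products of functions modulo the
squares of the primes dividing `b` and `b + t` and of additive phases (the squares `0` and `A²` are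
different: the part of `b` prime to `A` is large since `A` has few prime divisors, `deg A ≤ q ^ (θ n)`).

Authors: this project (tuples at different squares: statements, adaptations, assembly): helper542,
from project NS (helper542, 289, 618, 213, 276, 769), which rests on helper560, 524, 740, 969, 980
(product formula near squares) and on the method of `MP_8923e7_nt.ParityEvenCharacteristic` (helper985,
604, 524, 183, 675, 996, 627, 233, 225).
-/

namespace Pool.Agent.Results.MP_b58c63_nt.SmallSummandNearSquares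

open Polynomial

open Classical in
/-- The Möbius function of `K[X]`: `(-1) ^ k` if `F` is a nonzero constant times a product of `k`
distinct monic irreducible polynomials, and `0` for all other `F`. -/
noncomputable def moebius {K : Type} [Field K] (F : K[X]) : ℤ :=
  if Squarefree F then (-1) ^ Multiset.card (UniqueFactorizationMonoid.factors F) else 0

/-- The representations `N = F + G`, `F` monic of degree `n`, `F` and `G` without irreducible factors of
degree at most `m`, `μ(F) = σ`, `μ(G) = τ`. -/
def Reps {K : Type} [Field K] (n m : ℕ) (N : K[X]) (σ τ : ℤ) : Set (K[X] × K[X]) :=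
  {p | p.1 + p.2 = N ∧ p.1.Monic ∧ p.1.natDegree = n ∧
    (∀ P : K[X], P.Monic → Irreducible P → P ∣ p.1 * p.2 → m < P.natDegree) ∧
    moebius p.1 = σ ∧ moebius p.2 = τ}

/-- The monic irreducible polynomials of degree at most `m`. -/
def primesUpTo (K : Type) [Field K] (m : ℕ) : Set K[X] :=
  {P | P.Monic ∧ Irreducible P ∧ P.natDegree ≤ m}

open Classical in
/-- The product over the primes `P` of degree at most `m` of `1 - 1 / |P|` if `P` divides `N` and of
`1 - 2 / |P|` if not. -/
noncomputable def density {K : Type} [Field K] [Fintype K] (N : K[X]) (m : ℕ) : ℝ :=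
  ∏ᶠ P ∈ primesUpTo K m, (1 - (if P ∣ N then 1 else 2) / (Fintype.card K : ℝ) ^ P.natDegree)

/-- A pair of shifts `0, S` is admissible if `q > 2` or `X (X + 1) ∣ S`. -/
theorem adm_pair {K : Type} [Field K] [Fintype K] [CharP K 2] (S : K[X])
    (h : 2 < Fintype.card K ∨ X ^ 2 + X ∣ S) : ∀ P : K[X], P.Monic → Irreducible P → ∃ x : K[X], ∀ i, ¬ P ∣ x + ![0, S] i := by
  classical
  intro P hP hPi
  -- three residue classes are enough
  have key : ∀ a b c : K[X], ¬ P ∣ a - b → ¬ P ∣ a - c → ¬ P ∣ b - c →
      ∃ x : K[X], ∀ i, ¬ P ∣ x + ![0, S] i := by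
    intro a b c hab hac hbc
    by_contra hcon
    push Not at hcon
    have e : ∀ x : K[X], P ∣ x ∨ P ∣ x + S := by
      intro x
      obtain ⟨i, hi⟩ := hcon x
      fin_cases i
      · left; simpa using hi
      · right; simpa using hi
    have d2 : ∀ x y : K[X], P ∣ x + S → P ∣ y + S → P ∣ x - y := by
      intro x y h1 h2
      have h3 := dvd_sub h1 h2
      have h4 : x + S - (y + S) = x - y := by ring
      rwa [h4] at h3
    rcases e a with h1 | h1 <;> rcases e b with h2 | h2 <;> rcases e c with h3 | h3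
    · exact hab (dvd_sub h1 h2)
    · exact hab (dvd_sub h1 h2)
    · exact hac (dvd_sub h1 h3)
    · exact hbc (d2 _ _ h2 h3)
    · exact hbc (dvd_sub h2 h3)
    · exact hac (d2 _ _ h1 h3)
    · exact hab (d2 _ _ h1 h2)
    · exact hab (d2 _ _ h1 h2)
  have hC : ∀ a : K, a ≠ 0 → ¬ P ∣ C a := fun a ha hd =>
    hPi.not_isUnit (isUnit_of_dvd_unit hd (isUnit_C.2 (isUnit_iff_ne_zero.2 ha)))
  rcases h with h | h
  · obtain ⟨γ, hγ⟩ : ∃ γ : K, γ ∉ ({0, 1} : Finset K) := by
      by_contra hcon
      push Not at hcon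
      have h1 : (Finset.univ : Finset K).card ≤ ({0, 1} : Finset K).card :=
        Finset.card_le_card fun x _ => hcon x
      have h2 : ({0, 1} : Finset K).card ≤ 2 := Finset.card_le_two
      rw [Finset.card_univ] at h1
      omega
    simp only [Finset.mem_insert, Finset.mem_singleton, not_or] at hγ
    refine key (C 0) (C 1) (C γ) ?_ ?_ ?_
    · rw [← C_sub]
      exact hC _ (by simp)
    · rw [← C_sub]
      refine hC _ ?_
      rw [zero_sub]
      exact neg_ne_zero.2 hγ.1
    · rw [← C_sub]
      exact hC _ (sub_ne_zero.2 (Ne.symm hγ.2))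
  · by_cases hd : P ∣ X ^ 2 + X
    · refine ⟨1, fun i hi => ?_⟩
      have h1 : P ∣ S := hd.trans h
      have h2 : P ∣ 1 := by
        fin_cases i
        · simpa using hi
        · have h3 : P ∣ 1 + S := by simpa using hi
          exact (dvd_add_left h1).1 h3
      exact hPi.not_isUnit (isUnit_of_dvd_one h2)
    · have hX : ¬ P ∣ X := fun h1 => hd (by
        have e : (X ^ 2 + X : K[X]) = X * (X + 1) := by ring
        rw [e]
        exact h1.mul_right _)
      have hX1 : ¬ P ∣ X + 1 := fun h1 => hd (by
        have e : (X ^ 2 + X : K[X]) = (X + 1) * X := by ring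
        rw [e]
        exact h1.mul_right _)
      refine key 0 1 X ?_ ?_ ?_
      · rw [zero_sub, dvd_neg]
        exact fun h1 => hPi.not_isUnit (isUnit_of_dvd_one h1)
      · rw [zero_sub, dvd_neg]
        exact hX
      · intro h1
        apply hX1
        have e : (1 - X : K[X]) = X + 1 := by
          rw [CharTwo.sub_eq_add]
          ring
        rwa [e] at h1

theorem density_eq {K : Type} [Field K] [Fintype K] [CharP K 2] (A r : K[X]) (m : ℕ) :
    density (A ^ 2 + r) m =
      Pool.Agent.H542.NS.VV (fun i => (![0, A] : Fin 2 → K[X]) i ^ 2 + (![0, r] : Fin 2 → K[X]) i) m := by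
  classical
  unfold density Pool.Agent.H542.NS.VV
  have h1 : primesUpTo K m = ((Pool.Agent.H694.Typ.PU K m : Finset K[X]) : Set K[X]) := by
    ext P
    rw [Finset.mem_coe, Pool.Agent.H694.Typ.mem_PU]
    rfl
  rw [h1, finprod_mem_coe_finset]
  refine Finset.prod_congr rfl fun P hP => ?_
  have hPm : P.Monic := (Pool.Agent.H694.Typ.mem_PU.1 hP).1
  have h2 : (Pool.Agent.H996.Par.Om (fun i => (![0, A] : Fin 2 → K[X]) i ^ 2 +
      (![0, r] : Fin 2 → K[X]) i) P).card = if P ∣ A ^ 2 + r then 1 else 2 := by
    have h3 : Pool.Agent.H996.Par.Om (fun i => (![0, A] : Fin 2 → K[X]) i ^ 2 +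
        (![0, r] : Fin 2 → K[X]) i) P = {0, (A ^ 2 + r) %ₘ P} := by
      unfold Pool.Agent.H996.Par.Om
      ext x
      simp only [Finset.mem_image, Finset.mem_univ, true_and, Finset.mem_insert,
        Finset.mem_singleton, Fin.exists_fin_two]
      simp [CharTwo.neg_eq, eq_comm]
    rw [h3]
    split_ifs with h
    · rw [(modByMonic_eq_zero_iff_dvd hPm).2 h]
      simp
    · rw [Finset.card_pair]
      exact fun h4 => h ((modByMonic_eq_zero_iff_dvd hPm).1 h4.symm)
  rw [h2]
  split_ifs <;> norm_num

/-- **Goldbach representations with one very small summand, near squares.** -/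
theorem result (K : Type) [Field K] [Fintype K] (hK : Even (Fintype.card K)) :
    ∃ c : ℝ, 0 < c ∧ ∀ ε : ℝ, 0 < ε →
    ∃ κ θ : ℝ, 0 < κ ∧ 0 < θ ∧ ∃ M H : ℕ, ∀ n m : ℕ, H ≤ n → M ≤ m → (m : ℝ) ≤ κ * n → Even n →
      ∀ A r : K[X], A.Monic → n < 2 * A.natDegree →
      (A.natDegree : ℝ) ≤ (Fintype.card K : ℝ) ^ (θ * n) → r.natDegree < n →
      (2 < Fintype.card K ∨ X ^ 2 + X ∣ A ^ 2 + r) →
      ∀ σ τ : ℤ, (σ = 1 ∨ σ = -1) → (τ = 1 ∨ τ = -1) →
        c / (m : ℝ) ^ 2 ≤ density (A ^ 2 + r) m ∧
        |((Reps n m (A ^ 2 + r) σ τ).ncard : ℝ) -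
          density (A ^ 2 + r) m * (Fintype.card K : ℝ) ^ n / 4| ≤
            ε * (density (A ^ 2 + r) m * (Fintype.card K : ℝ) ^ n) := by
  classical
  have := Pool.Agent.H985.Cor.charTwo_of_even hK
  obtain ⟨c, hc, h0⟩ := Pool.Agent.H542.NJ.cntJ Pool.Agent.H985.Par.s_sw
    Pool.Agent.H542.NJ.s_parJ Pool.Agent.H542.NJ.s_lowJ K 2
  refine ⟨c, hc, fun ε hε => ?_⟩
  obtain ⟨κ, θ, hκ, hθ, M, H, h1⟩ := h0 ε hε
  refine ⟨κ, θ, hκ, hθ, M, H + 1, ?_⟩
  intro n m hn hm hmκ hev A r hA hnA hAd hr hadm σ τ hσ hτ
  obtain ⟨l, hl⟩ := hev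
  have hl2 : n / 2 = l := by omega
  have hC0 : Pool.Agent.H542.NS.Cn n (0 : K[X]) := by
    refine ⟨⟨l, hl⟩, ?_, ?_⟩
    · rw [add_zero]
      exact monic_X_pow _
    · rw [add_zero, natDegree_X_pow]
  have hlt : ((X : K[X]) ^ (n / 2)).degree < A.degree := by
    rw [degree_X_pow, degree_eq_natDegree hA.ne_zero]
    exact_mod_cast (by omega : n / 2 < A.natDegree)
  have hCA : Pool.Agent.H542.NS.Cn n A := by
    refine ⟨⟨l, hl⟩, hA.add_of_right hlt, ?_⟩
    rw [natDegree_add_eq_right_of_degree_lt hlt]
    omega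
  have hN0 : A ^ 2 + r ≠ 0 := by
    have h2 : r.degree < (A ^ 2).degree := by
      rw [degree_eq_natDegree (hA.pow 2).ne_zero, natDegree_pow]
      refine degree_le_natDegree.trans_lt ?_
      exact_mod_cast (by omega : r.natDegree < 2 * A.natDegree)
    exact ((hA.pow 2).add_of_left h2).ne_zero
  have hq1 : (1 : ℝ) < Fintype.card K := by exact_mod_cast Fintype.one_lt_card
  have h2 := h1 n m (by omega) hm hmκ ⟨l, hl⟩ ![0, A] (by
      intro i
      fin_cases i
      · exact hC0
      · exact hCA) (by
      intro i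
      fin_cases i
      · show ((0 : K[X]).natDegree : ℝ) ≤ _
        rw [natDegree_zero]
        push_cast
        positivity
      · exact hAd) ![0, r] (by
      intro i j hij
      fin_cases i <;> fin_cases j
      · rfl
      · exact absurd (by simpa using hij.symm) hN0
      · exact absurd (by simpa using hij) hN0
      · rfl) (by
      intro i
      fin_cases i
      · show (0 : K[X]).natDegree < n
        rw [natDegree_zero]
        omega
      · exact hr) (by
      intro P hP hPi
      obtain ⟨x, hx⟩ := adm_pair (A ^ 2 + r) hadm P hP hPi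
      refine ⟨x, fun i => ?_⟩
      have h3 := hx i
      fin_cases i
      · simpa using h3
      · simpa using h3) ![σ, τ] (by
      intro i
      fin_cases i
      · exact hσ
      · exact hτ)
  rw [← density_eq] at h2
  have hcard : (Reps n m (A ^ 2 + r) σ τ).ncard =
      ((Pool.Agent.H985.Par.Sfs K (fun i => (![0, A] : Fin 2 → K[X]) i ^ 2 +
        (![0, r] : Fin 2 → K[X]) i) n m).filter (fun f => ∀ i : Fin 2,
          Pool.Agent.H985.Chow.mob (f + ((![0, A] : Fin 2 → K[X]) i ^ 2 +
            (![0, r] : Fin 2 → K[X]) i)) = (![σ, τ] : Fin 2 → ℤ) i)).card := by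
    rw [← Set.ncard_coe_finset]
    symm
    refine Set.ncard_congr (fun f _ => (f, f + (A ^ 2 + r))) ?_ ?_ ?_
    · intro f hf
      rw [Finset.mem_coe, Finset.mem_filter] at hf
      unfold Pool.Agent.H985.Par.Sfs at hf
      rw [Finset.mem_filter, Pool.Agent.H694.Typ.mem_Mn] at hf
      obtain ⟨⟨⟨e1, e2⟩, e3⟩, e4⟩ := hf
      have f0 := e3 0
      have f1 := e3 1
      have g0 := e4 0
      have g1 := e4 1
      simp only [Matrix.cons_val_zero, Matrix.cons_val_one, ne_eq, OfNat.ofNat_ne_zero,
        not_false_eq_true, zero_pow, add_zero] at f0 f1 g0 g1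
      refine ⟨?_, e1, e2, ?_, g0, g1⟩
      · show f + (f + (A ^ 2 + r)) = A ^ 2 + r
        rw [← add_assoc, CharTwo.add_self_eq_zero, zero_add]
      · intro P hP hPi hd
        rcases hPi.prime.dvd_or_dvd hd with h5 | h5
        · exact f0 P hP hPi h5
        · exact f1 P hP hPi h5
    · intro f g _ _ h5
      exact (Prod.ext_iff.1 h5).1
    · rintro ⟨F, G⟩ ⟨e1, e2, e3, e4, e5, e6⟩
      have e7 : G = F + (A ^ 2 + r) := by
        rw [← e1]
        show G = F + (F + G)
        rw [← add_assoc, CharTwo.add_self_eq_zero, zero_add]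
      refine ⟨F, ?_, by rw [e7]⟩
      simp only at e4 e5 e6
      rw [Finset.mem_coe, Finset.mem_filter]
      unfold Pool.Agent.H985.Par.Sfs
      rw [Finset.mem_filter, Pool.Agent.H694.Typ.mem_Mn]
      refine ⟨⟨⟨e2, e3⟩, ?_⟩, ?_⟩
      · intro i
        fin_cases i
        · simp only [Fin.zero_eta, Matrix.cons_val_zero, ne_eq, OfNat.ofNat_ne_zero,
            not_false_eq_true, zero_pow, add_zero]
          exact fun P hP hPi hd => e4 P hP hPi (hd.mul_right _)
        · simp only [Fin.mk_one, Matrix.cons_val_one, Matrix.cons_val_zero]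
          rw [← e7]
          exact fun P hP hPi hd => e4 P hP hPi (hd.mul_left _)
      · intro i
        fin_cases i
        · simp only [Fin.zero_eta, Matrix.cons_val_zero, ne_eq, OfNat.ofNat_ne_zero,
            not_false_eq_true, zero_pow, add_zero]
          exact e5
        · simp only [Fin.mk_one, Matrix.cons_val_one, Matrix.cons_val_zero]
          rw [← e7]
          exact e6
  rw [hcard]
  obtain ⟨h3, h4⟩ := h2
  refine ⟨h3, ?_⟩
  have e4 : (4 : ℝ) = 2 ^ 2 := by norm_num
  rw [e4]
  exact h4

end Pool.Agent.Results.MP_b58c63_nt.SmallSummandNearSquares
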